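import Mathlib

set_option autoImplicit false

/-! # Arithmetic of `√2` and counting of returns -/

namespace Pool.Agent.H145FF

open Finset

/-- the rotation number -/
noncomputable def al : ℝ := Real.sqrt 2

theorem al_sq : al ^ 2 = 2 := Real.sq_sqrt (by norm_num)

theorem al_nonneg : 0 ≤ al := Real.sqrt_nonneg 2

theorem al_le : al ≤ 3 / 2 := by
  unfold al
  rw [Real.sqrt_le_left (by norm_num)]
  norm_num

/-- `√2` is badly approximable. -/
theorem badly (j i : ℤ) (hj : j ≠ 0) : 1 / (4 * |(j : ℝ)|) ≤ |(j : ℝ) * al - i| := by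
  have hj1 : (1 : ℝ) ≤ |(j : ℝ)| := by
    rw [← Int.cast_abs]
    exact_mod_cast Int.one_le_abs hj
  have hne : 2 * j ^ 2 - i ^ 2 ≠ 0 := by
    intro h
    have hirr : Irrational (Real.sqrt 2) := irrational_sqrt_two
    apply hirr
    have hjr : (j : ℝ) ≠ 0 := by exact_mod_cast hj
    have h2 : (2 : ℝ) * j ^ 2 - i ^ 2 = 0 := by exact_mod_cast h
    have h3 : (2 : ℝ) = (|(i : ℝ) / j|) ^ 2 := by
      rw [sq_abs]
      field_simp
      linarith
    refine ⟨|(i : ℚ) / j|, ?_⟩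
    rw [h3, Real.sqrt_sq (abs_nonneg _)]
    push_cast
    rfl
  have habs : (1 : ℝ) ≤ |2 * (j : ℝ) ^ 2 - (i : ℝ) ^ 2| := by
    have : (1 : ℤ) ≤ |2 * j ^ 2 - i ^ 2| := Int.one_le_abs hne
    exact_mod_cast this
  have hfac : 2 * (j : ℝ) ^ 2 - (i : ℝ) ^ 2 = (j * al - i) * (j * al + i) := by
    ring_nf
    rw [al_sq]
  rw [hfac, abs_mul] at habs
  rcases le_or_gt 1 |(j : ℝ) * al - i| with h | h
  · refine le_trans ?_ h
    rw [div_le_one (by positivity)]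
    linarith
  · have hs : |(j : ℝ) * al + i| ≤ 4 * |(j : ℝ)| := by
      have h1 : (j : ℝ) * al + i = 2 * (j * al) - (j * al - i) := by ring
      rw [h1]
      refine (abs_sub _ _).trans ?_
      have h2 : |2 * ((j : ℝ) * al)| ≤ 3 * |(j : ℝ)| := by
        rw [abs_mul, abs_mul, abs_of_nonneg al_nonneg, abs_of_pos (by norm_num : (0 : ℝ) < 2)]
        nlinarith [al_le, abs_nonneg (j : ℝ)]
      linarith
    rw [div_le_iff₀ (by positivity)]
    nlinarith [abs_nonneg ((j : ℝ) * al - i), abs_nonneg ((j : ℝ) * al + i)]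

/-- integers of `[1, L]` pairwise at distance `≥ D` -/
theorem card_sep (S : Finset ℕ) (L : ℕ) (D : ℝ) (hD : 0 < D) (hL : ∀ j ∈ S, j ≤ L)
    (hsep : ∀ j ∈ S, ∀ j' ∈ S, j < j' → D ≤ (j' : ℝ) - j) :
    (S.card : ℝ) ≤ L / D + 1 := by
  have hmap : ∀ j ∈ S, ⌊(j : ℝ) / D⌋₊ ∈ Finset.range (⌊(L : ℝ) / D⌋₊ + 1) := by
    intro j hj
    rw [Finset.mem_range, Nat.lt_succ_iff]
    apply Nat.floor_le_floor
    gcongr
    exact hL j hj
  have hinj : Set.InjOn (fun j : ℕ => ⌊(j : ℝ) / D⌋₊) S := by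
    have key : ∀ j ∈ S, ∀ j' ∈ S, ⌊(j : ℝ) / D⌋₊ = ⌊(j' : ℝ) / D⌋₊ → ¬ j < j' := by
      intro j hj j' hj' he hlt
      have h1 := hsep j hj j' hj' hlt
      have h2 : (j : ℝ) / D < ⌊(j : ℝ) / D⌋₊ + 1 := Nat.lt_floor_add_one _
      have h3 : (⌊(j : ℝ) / D⌋₊ : ℝ) ≤ (j : ℝ) / D := Nat.floor_le (by positivity)
      have h4 : (j' : ℝ) / D < ⌊(j' : ℝ) / D⌋₊ + 1 := Nat.lt_floor_add_one _
      rw [← he] at h4
      have h5 : (j' : ℝ) / D - (j : ℝ) / D < 1 := by linarith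
      rw [← sub_div, div_lt_one hD] at h5
      linarith
    intro j hj j' hj' he
    rcases lt_trichotomy j j' with h | h | h
    · exact absurd h (key j hj j' hj' he)
    · exact h
    · exact absurd h (key j' hj' j hj he.symm)
  have hc := Finset.card_le_card_of_injOn _ hmap hinj
  rw [Finset.card_range] at hc
  have h1 : (S.card : ℝ) ≤ (⌊(L : ℝ) / D⌋₊ : ℝ) + 1 := by exact_mod_cast hc
  have h2 : (⌊(L : ℝ) / D⌋₊ : ℝ) ≤ (L : ℝ) / D := Nat.floor_le (by positivity)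
  linarith

open Classical in
/-- the times of return at distance `≤ ρ` -/
noncomputable def Ret (ρ : ℝ) (L : ℕ) : Finset ℕ :=
  (Finset.Icc 1 L).filter (fun j => ∃ i : ℤ, |(j : ℝ) * al - i| ≤ ρ)

theorem mem_Ret {ρ : ℝ} {L j : ℕ} :
    j ∈ Ret ρ L ↔ (1 ≤ j ∧ j ≤ L) ∧ ∃ i : ℤ, |(j : ℝ) * al - i| ≤ ρ := by
  classical
  unfold Ret
  rw [Finset.mem_filter, Finset.mem_Icc]

theorem card_Ret (ρ : ℝ) (hρ : 0 < ρ) (L : ℕ) : ((Ret ρ L).card : ℝ) ≤ 8 * ρ * L + 1 := by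
  have h := card_sep (Ret ρ L) L (1 / (8 * ρ)) (by positivity)
    (fun j hj => by
      rw [mem_Ret] at hj
      exact hj.1.2)
    (fun j hj j' hj' hlt => by
      rw [mem_Ret] at hj hj'
      obtain ⟨_, i, hi⟩ := hj
      obtain ⟨_, i', hi'⟩ := hj'
      have hb := badly ((j' : ℤ) - j) (i' - i) (by omega)
      push_cast at hb
      have hpos : (0 : ℝ) < (j' : ℝ) - j := by
        have : (j : ℝ) < j' := by exact_mod_cast hlt
        linarith
      rw [abs_of_pos hpos] at hb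
      have h2 : |((j' : ℝ) - j) * al - (i' - i)| ≤ 2 * ρ := by
        have : ((j' : ℝ) - j) * al - (i' - i) = (j' * al - i') - (j * al - i) := by ring
        rw [this]
        refine (abs_sub _ _).trans ?_
        linarith
      have h3 := hb.trans h2
      rw [div_le_iff₀ (by positivity)] at h3
      rw [div_le_iff₀ (by positivity)]
      linarith)
  calc ((Ret ρ L).card : ℝ) ≤ L / (1 / (8 * ρ)) + 1 := h
    _ = 8 * ρ * L + 1 := by field_simp

/-- `k` is bad for the tubes `n < m`, with half lengths `2 N n + 1` and radii `ρ n` -/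
def Bad (m : ℕ) (N ρ : ℕ → ℝ) (k : ℕ) : Prop :=
  ∃ n < m, ∃ s : ℝ, (k : ℝ) ≤ s ∧ s ≤ k + 1 ∧ ∃ j i : ℤ, |s + j| ≤ 2 * N n + 1 ∧
    |(j : ℝ) * al - i| ≤ ρ n

theorem bad_subset (m : ℕ) (N : ℕ → ℕ) (ρ : ℕ → ℝ) (H : ℕ) (hN2 : ∀ n, 2 ≤ N n)
    (hNH : ∀ n < m, 10 * N n ≤ H) (k : ℕ) (hk1 : H ≤ k) (hk2 : k < 4 * H)
    (hb : Bad m (fun n => (N n : ℝ)) ρ k) :
    k ∈ (Finset.range m).biUnion (fun n => (Ret (ρ n) (6 * H)).biUnion
      (fun j => Finset.Icc (j - (2 * N n + 2)) (j + (2 * N n + 2)))) := by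
  obtain ⟨n, hn, s, hs1, hs2, j, i, hj, hi⟩ := hb
  have hN := hN2 n
  have hNH' := hNH n hn
  rw [abs_le] at hj
  have h1 : (k : ℝ) - (2 * N n + 1) ≤ ((-j : ℤ) : ℝ) := by push_cast; linarith
  have h2 : ((-j : ℤ) : ℝ) ≤ k + (2 * N n + 2) := by push_cast; linarith
  have h1' : (k : ℤ) - (2 * N n + 1) ≤ -j := by exact_mod_cast h1
  have h2' : -j ≤ (k : ℤ) + (2 * N n + 2) := by exact_mod_cast h2
  have hjpos : 1 ≤ -j := by omega
  obtain ⟨j', hj'⟩ : ∃ j' : ℕ, (j' : ℤ) = -j := ⟨(-j).toNat, by omega⟩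
  simp only [Finset.mem_biUnion, Finset.mem_range, Finset.mem_Icc]
  refine ⟨n, hn, j', ?_, ?_, ?_⟩
  · rw [mem_Ret]
    refine ⟨⟨by omega, by omega⟩, -i, ?_⟩
    have h3 : (j' : ℝ) = -(j : ℝ) := by exact_mod_cast hj'
    rw [h3]
    push_cast
    have : -(j : ℝ) * al - -(i : ℝ) = -((j : ℝ) * al - i) := by ring
    rw [this, abs_neg]
    exact hi
  · omega
  · omega

open Classical in
theorem card_Bad (m : ℕ) (N : ℕ → ℕ) (ρ : ℕ → ℝ) (H : ℕ) (hN2 : ∀ n, 2 ≤ N n) (hρ : ∀ n, 0 < ρ n)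
    (hNH : ∀ n < m, 10 * N n ≤ H) (hsumN : 100 * ∑ n ∈ Finset.range m, (N n : ℝ) ≤ H)
    (hsum : 2000 * ∑ n ∈ Finset.range m, (N n : ℝ) * ρ n ≤ 1) (A B : ℕ) (hA : H ≤ A) (hB : B ≤ 4 * H) :
    (((Finset.Ico A B).filter (fun k => Bad m (fun n => (N n : ℝ)) ρ k)).card : ℝ) ≤ H / 4 := by
  have hsub : (Finset.Ico A B).filter (fun k => Bad m (fun n => (N n : ℝ)) ρ k) ⊆
      (Finset.range m).biUnion (fun n => (Ret (ρ n) (6 * H)).biUnion
      (fun j => Finset.Icc (j - (2 * N n + 2)) (j + (2 * N n + 2)))) := by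
    intro k hk
    rw [Finset.mem_filter, Finset.mem_Ico] at hk
    exact bad_subset m N ρ H hN2 hNH k (by omega) (by omega) hk.2
  have h1 : ((Finset.Ico A B).filter (fun k => Bad m (fun n => (N n : ℝ)) ρ k)).card ≤
      ∑ n ∈ Finset.range m, (Ret (ρ n) (6 * H)).card * (4 * N n + 5) := by
    refine (Finset.card_le_card hsub).trans ?_
    refine Finset.card_biUnion_le.trans (Finset.sum_le_sum (fun n _ => ?_))
    refine Finset.card_biUnion_le.trans ?_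
    have h := Finset.sum_le_card_nsmul (Ret (ρ n) (6 * H))
      (fun j => (Finset.Icc (j - (2 * N n + 2)) (j + (2 * N n + 2))).card) (4 * N n + 5)
      (fun j _ => by rw [Nat.card_Icc]; omega)
    rwa [smul_eq_mul] at h
  have h2 : (((Finset.Ico A B).filter (fun k => Bad m (fun n => (N n : ℝ)) ρ k)).card : ℝ) ≤
      ∑ n ∈ Finset.range m, ((Ret (ρ n) (6 * H)).card : ℝ) * (4 * N n + 5) := by
    exact_mod_cast h1
  refine h2.trans ?_
  have h3 : ∀ n ∈ Finset.range m, ((Ret (ρ n) (6 * H)).card : ℝ) * (4 * N n + 5)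
      ≤ 336 * H * ((N n : ℝ) * ρ n) + 7 * N n := by
    intro n _
    have hc := card_Ret (ρ n) (hρ n) (6 * H)
    have hN : (2 : ℝ) ≤ N n := by exact_mod_cast hN2 n
    have h4 : (4 * (N n : ℝ) + 5) ≤ 7 * N n := by linarith
    push_cast at hc
    have hc0 : (0 : ℝ) ≤ (Ret (ρ n) (6 * H)).card := by positivity
    have hH0 : (0 : ℝ) ≤ H := by positivity
    have hrn := (hρ n).le
    calc ((Ret (ρ n) (6 * H)).card : ℝ) * (4 * N n + 5) ≤ (8 * ρ n * (6 * H) + 1) * (7 * N n) := by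
          gcongr
      _ = 336 * H * ((N n : ℝ) * ρ n) + 7 * N n := by ring
  refine (Finset.sum_le_sum h3).trans ?_
  rw [Finset.sum_add_distrib, ← Finset.mul_sum, ← Finset.mul_sum]
  have hH0 : (0 : ℝ) ≤ H := by positivity
  nlinarith [mul_le_mul_of_nonneg_left hsum hH0]

end Pool.Agent.H145FF
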