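import Mathlib

set_option autoImplicit false

/-! # The profile functions -/

namespace Pool.Agent.H145FF

open Finset Filter Topology
open scoped ContDiff

/-- smooth step -/
noncomputable def sg (x : ℝ) : ℝ := Real.smoothTransition x

theorem sg_smooth : ContDiff ℝ ∞ sg := Real.smoothTransition.contDiff

theorem sg_mono : Monotone sg := Real.smoothTransition.monotone

theorem sg_zero {x : ℝ} (h : x ≤ 0) : sg x = 0 := Real.smoothTransition.zero_of_nonpos h

theorem sg_one {x : ℝ} (h : 1 ≤ x) : sg x = 1 := Real.smoothTransition.one_of_one_le h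

theorem sg_nonneg (x : ℝ) : 0 ≤ sg x := Real.smoothTransition.nonneg x

theorem sg_le_one (x : ℝ) : sg x ≤ 1 := Real.smoothTransition.le_one x

theorem sg_iter_cont (i : ℕ) : Continuous (iteratedDeriv i sg) :=
  sg_smooth.continuous_iteratedDeriv i (by exact_mod_cast le_top)

theorem sg_iter_zero (i : ℕ) (hi : 1 ≤ i) {x : ℝ} (h : x ≤ 0 ∨ 1 ≤ x) : iteratedDeriv i sg x = 0 := by
  have hclosed : IsClosed {x | iteratedDeriv i sg x = 0} := isClosed_eq (sg_iter_cont i) continuous_const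
  have hc : ∀ c : ℝ, iteratedDeriv i (fun _ : ℝ => c) = fun _ => 0 := by
    intro c
    ext y
    simp [iteratedDeriv_const, show i ≠ 0 by omega]
  rcases h with h | h
  · have hs : Set.Iio (0 : ℝ) ⊆ {x | iteratedDeriv i sg x = 0} := by
      intro y hy
      have he : sg =ᶠ[𝓝 y] fun _ => (0 : ℝ) := by
        filter_upwards [Iio_mem_nhds hy] with z hz
        exact sg_zero (le_of_lt hz)
      show iteratedDeriv i sg y = 0
      rw [he.iteratedDeriv_eq i, hc 0]
    have h2 := closure_minimal hs hclosed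
    rw [closure_Iio] at h2
    exact h2 h
  · have hs : Set.Ioi (1 : ℝ) ⊆ {x | iteratedDeriv i sg x = 0} := by
      intro y hy
      have he : sg =ᶠ[𝓝 y] fun _ => (1 : ℝ) := by
        filter_upwards [Ioi_mem_nhds hy] with z hz
        exact sg_one (le_of_lt hz)
      show iteratedDeriv i sg y = 0
      rw [he.iteratedDeriv_eq i, hc 1]
    have h2 := closure_minimal hs hclosed
    rw [closure_Ioi] at h2
    exact h2 h

theorem sg_bound : ∃ S : ℝ, 0 < S ∧ ∀ i ∈ Finset.Icc 1 3, ∀ x, |iteratedDeriv i sg x| ≤ S := by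
  have h : ∀ i : ℕ, 1 ≤ i → ∃ S : ℝ, ∀ x, |iteratedDeriv i sg x| ≤ S := by
    intro i hi
    obtain ⟨C, hC⟩ := isCompact_Icc.exists_bound_of_continuousOn (s := Set.Icc (0 : ℝ) 1) (f := iteratedDeriv i sg)
      (sg_iter_cont i).continuousOn
    refine ⟨|C|, fun x => ?_⟩
    by_cases hx : x ≤ 0 ∨ 1 ≤ x
    · rw [sg_iter_zero i hi hx]; simp
    · push Not at hx
      have := hC x ⟨hx.1.le, hx.2.le⟩
      rw [Real.norm_eq_abs] at this
      exact this.trans (le_abs_self _)
  obtain ⟨S1, h1⟩ := h 1 le_rfl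
  obtain ⟨S2, h2⟩ := h 2 (by norm_num)
  obtain ⟨S3, h3⟩ := h 3 (by norm_num)
  refine ⟨|S1| + |S2| + |S3| + 1, by positivity, fun i hi x => ?_⟩
  rw [Finset.mem_Icc] at hi
  have a1 := abs_nonneg S1
  have a2 := abs_nonneg S2
  have a3 := abs_nonneg S3
  have b1 := le_abs_self S1
  have b2 := le_abs_self S2
  have b3 := le_abs_self S3
  obtain ⟨hi1, hi2⟩ := hi
  interval_cases i
  · linarith [h1 x]
  · linarith [h2 x]
  · linarith [h3 x]

theorem sg_deriv_nonneg (x : ℝ) : 0 ≤ deriv sg x := sg_mono.deriv_nonneg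

theorem sg_deriv_zero {x : ℝ} (h : x ≤ 0 ∨ 1 ≤ x) : deriv sg x = 0 := by
  have := sg_iter_zero 1 le_rfl h
  rwa [iteratedDeriv_one] at this

theorem sg_hasDeriv (x : ℝ) : HasDerivAt sg (deriv sg x) x :=
  ((sg_smooth.differentiable (by norm_num)) x).hasDerivAt

/-- `∫ y sg'(y) dy` -/
noncomputable def ta (x : ℝ) : ℝ := ∫ y in (0 : ℝ)..x, y * deriv sg y

theorem ta_int_cont : Continuous (fun y : ℝ => y * deriv sg y) := by
  have := sg_iter_cont 1
  rw [iteratedDeriv_one] at this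
  exact continuous_id.mul this

theorem ta_hasDeriv (x : ℝ) : HasDerivAt ta (x * deriv sg x) x :=
  intervalIntegral.integral_hasDerivAt_right (ta_int_cont.intervalIntegrable _ _)
    ta_int_cont.stronglyMeasurable.stronglyMeasurableAtFilter ta_int_cont.continuousAt

theorem ta_smooth : ContDiff ℝ ∞ ta := by
  rw [contDiff_infty_iff_deriv]
  refine ⟨fun x => (ta_hasDeriv x).differentiableAt, ?_⟩
  have h : deriv ta = fun x => x * deriv sg x := by ext x; exact (ta_hasDeriv x).deriv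
  rw [h]
  exact contDiff_id.mul (contDiff_infty_iff_deriv.1 sg_smooth).2

theorem ta_zero {x : ℝ} (h : x ≤ 0) : ta x = 0 := by
  unfold ta
  rw [intervalIntegral.integral_symm, neg_eq_zero]
  apply intervalIntegral.integral_zero_ae
  refine Filter.Eventually.of_forall (fun y hy => ?_)
  rw [Set.uIoc_of_le h] at hy
  rw [sg_deriv_zero (Or.inl hy.2), mul_zero]

theorem ta_mono : Monotone ta := by
  apply monotone_of_deriv_nonneg (fun x => (ta_hasDeriv x).differentiableAt)
  intro x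
  rw [(ta_hasDeriv x).deriv]
  rcases le_or_gt x 0 with h | h
  · rw [sg_deriv_zero (Or.inl h), mul_zero]
  · exact mul_nonneg h.le (sg_deriv_nonneg x)

theorem sgta_mono : Monotone (fun x => sg x - ta x) := by
  have hd : ∀ x, HasDerivAt (fun x => sg x - ta x) ((1 - x) * deriv sg x) x := by
    intro x
    have h2 : (1 - x) * deriv sg x = deriv sg x - x * deriv sg x := by ring
    rw [h2]
    exact (sg_hasDeriv x).sub (ta_hasDeriv x)
  apply monotone_of_deriv_nonneg (fun x => (hd x).differentiableAt)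
  intro x
  rw [(hd x).deriv]
  rcases le_or_gt 1 x with h | h
  · rw [sg_deriv_zero (Or.inr h), mul_zero]
  · exact mul_nonneg (by linarith) (sg_deriv_nonneg x)

theorem ta_nonneg (x : ℝ) : 0 ≤ ta x := by
  rcases le_or_gt x 0 with h | h
  · rw [ta_zero h]
  · rw [← ta_zero le_rfl]; exact ta_mono h.le

theorem ta_le_sg (x : ℝ) : ta x ≤ sg x := by
  rcases le_or_gt x 0 with h | h
  · rw [ta_zero h, sg_zero h]
  · have := sgta_mono h.le
    simp only [ta_zero le_rfl, sg_zero le_rfl] at this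
    linarith

theorem ta_one {x : ℝ} (h : 1 ≤ x) : ta x = ta 1 := by
  have h1 := ta_mono h
  have h2 := sgta_mono h
  simp only [sg_one h, sg_one le_rfl] at h2
  linarith

theorem ta_le_one : ta 1 ≤ 1 := (ta_le_sg 1).trans (sg_le_one 1)

theorem one_sub_sg (x : ℝ) : ta 1 - ta x ≤ 1 - sg x := by
  rcases le_or_gt x 1 with h | h
  · have := sgta_mono h
    simp only [sg_one le_rfl] at this
    linarith
  · rw [ta_one h.le, sg_one h.le]; simp

theorem ta_le_ta_one (x : ℝ) : ta x ≤ ta 1 := by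
  rcases le_or_gt x 1 with h | h
  · exact ta_mono h
  · rw [ta_one h.le]

/-- moment step -/
noncomputable def w (k : ℕ) (t : ℝ) : ℝ := (k + 1) * (1 - sg (k + 1 - t)) - (ta 1 - ta (k + 1 - t))

/-- final value of `w k` -/
noncomputable def Iw (k : ℕ) : ℝ := (k + 1) - ta 1

theorem Iw_le (k : ℕ) : Iw k ≤ k + 1 := by unfold Iw; linarith [ta_nonneg 1]
theorem le_Iw (k : ℕ) : k ≤ Iw k := by unfold Iw; linarith [ta_le_one]

theorem w_smooth (k : ℕ) : ContDiff ℝ ∞ (w k) := by
  unfold w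
  have h : ContDiff ℝ ∞ (fun t : ℝ => (k : ℝ) + 1 - t) := contDiff_const.sub contDiff_id
  exact (contDiff_const.mul (contDiff_const.sub (sg_smooth.comp h))).sub
    (contDiff_const.sub (ta_smooth.comp h))

theorem sgk_hasDeriv (k : ℕ) (t : ℝ) :
    HasDerivAt (fun t : ℝ => sg (k + 1 - t)) (-deriv sg (k + 1 - t)) t := by
  have h : HasDerivAt (fun t : ℝ => (k : ℝ) + 1 - t) (-1) t := by
    simpa using (hasDerivAt_id t).const_sub ((k : ℝ) + 1)
  have h2 : -deriv sg ((k : ℝ) + 1 - t) = deriv sg ((k : ℝ) + 1 - t) * (-1) := by ring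
  rw [h2]
  exact (sg_hasDeriv (k + 1 - t)).comp t h

theorem w_hasDeriv (k : ℕ) (t : ℝ) : HasDerivAt (w k) (t * deriv sg (k + 1 - t)) t := by
  have h : HasDerivAt (fun t : ℝ => (k : ℝ) + 1 - t) (-1) t := by
    simpa using (hasDerivAt_id t).const_sub ((k : ℝ) + 1)
  have h2 := (ta_hasDeriv (k + 1 - t)).comp t h
  have h3 := ((sgk_hasDeriv k t).const_sub 1).const_mul ((k : ℝ) + 1)
  have h4 := h3.sub (h2.const_sub (ta 1))
  have h5 : t * deriv sg ((k : ℝ) + 1 - t) = ((k : ℝ) + 1) * -(-deriv sg ((k : ℝ) + 1 - t))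
      - -(((k : ℝ) + 1 - t) * deriv sg ((k : ℝ) + 1 - t) * -1) := by ring
  rw [h5]
  exact h4

theorem w_nonneg (k : ℕ) (t : ℝ) : 0 ≤ w k t := by
  unfold w
  have h1 := one_sub_sg (k + 1 - t)
  have h2 := sg_le_one ((k : ℝ) + 1 - t)
  have hk : (0 : ℝ) ≤ k := by positivity
  nlinarith

theorem w_le (k : ℕ) (t : ℝ) : w k t ≤ Iw k := by
  unfold w Iw
  have h1 := ta_le_sg (k + 1 - t)
  have h2 := sg_nonneg ((k : ℝ) + 1 - t)
  have hk : (0 : ℝ) ≤ k := by positivity
  nlinarith

theorem w_zero (k : ℕ) {t : ℝ} (h : t ≤ k) : w k t = 0 := by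
  unfold w
  rw [sg_one (x := (k : ℝ) + 1 - t) (by linarith), ta_one (x := (k : ℝ) + 1 - t) (by linarith)]
  ring

theorem w_one (k : ℕ) {t : ℝ} (h : (k : ℝ) + 1 ≤ t) : w k t = Iw k := by
  unfold w Iw
  rw [sg_zero (x := (k : ℝ) + 1 - t) (by linarith), ta_zero (x := (k : ℝ) + 1 - t) (by linarith)]
  ring

end Pool.Agent.H145FF
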