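import Mathlib
import Pool.Agent.Helper145.FF.SchedB
import Pool.Agent.Helper930.FF.Defs

set_option autoImplicit false

/-! # The profile functions -/

namespace Pool.Agent.H145FF

open Finset Filter Topology
open scoped ContDiff

/-- data: two sets of good integers -/
structure GD where
  H : ℕ
  G1 : Finset ℕ
  G2 : Finset ℕ
  hH : 1 ≤ H
  h1 : ∀ k ∈ G1, 3 * H ≤ k ∧ k < 4 * H
  h2 : ∀ k ∈ G2, H ≤ k ∧ k < 2 * H
  c1 : 3 * (H : ℝ) / 4 ≤ G1.card
  c2 : 3 * (H : ℝ) / 4 ≤ G2.card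

namespace GD

variable (D : GD)

noncomputable def ka : ℝ := 1 - 1 / 2000 ^ 2

theorem ka_pos : 0 < ka := by unfold ka; norm_num
theorem ka_le : ka ≤ 1 := by unfold ka; norm_num

theorem Hpos : (1 : ℝ) ≤ D.H := by exact_mod_cast D.hH

theorem c1pos : (0 : ℝ) < D.G1.card := by have := D.c1; have := D.Hpos; linarith
theorem c2pos : (0 : ℝ) < D.G2.card := by have := D.c2; have := D.Hpos; linarith

noncomputable def A1 : ℝ := (∑ k ∈ D.G1, Iw k) / D.G1.card
noncomputable def A2 : ℝ := (∑ k ∈ D.G2, Iw k) / D.G2.card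

theorem A1_ge : 3 * (D.H : ℝ) ≤ D.A1 := by
  unfold A1
  rw [le_div_iff₀ D.c1pos]
  have := Finset.card_nsmul_le_sum D.G1 Iw (3 * (D.H : ℝ)) (fun k hk => by
    refine le_trans ?_ (le_Iw k)
    exact_mod_cast (D.h1 k hk).1)
  rw [nsmul_eq_mul] at this
  linarith

theorem A2_le : D.A2 ≤ 2 * (D.H : ℝ) := by
  unfold A2
  rw [div_le_iff₀ D.c2pos]
  have := Finset.sum_le_card_nsmul D.G2 Iw (2 * (D.H : ℝ)) (fun k hk => by
    refine (Iw_le k).trans ?_
    have : k + 1 ≤ 2 * D.H := (D.h2 k hk).2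
    exact_mod_cast this)
  rw [nsmul_eq_mul] at this
  linarith

theorem A2_pos : 0 < D.A2 := by
  unfold A2
  apply div_pos _ D.c2pos
  have := Finset.card_nsmul_le_sum D.G2 Iw (D.H : ℝ) (fun k hk => by
    refine le_trans ?_ (le_Iw k)
    exact_mod_cast (D.h2 k hk).1)
  rw [nsmul_eq_mul] at this
  have h1 := D.c2pos
  have h2 := D.Hpos
  have : 0 < (D.G2.card : ℝ) * D.H := by positivity
  linarith

noncomputable def be : ℝ := ka * D.A2 / (D.A1 - D.A2)

theorem A12 : (D.H : ℝ) ≤ D.A1 - D.A2 := by linarith [D.A1_ge, D.A2_le]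

theorem be_pos : 0 < D.be := by
  unfold be
  have h1 := D.A12
  have h2 := D.Hpos
  exact div_pos (mul_pos ka_pos D.A2_pos) (by linarith)

theorem be_le : D.be ≤ 2 * ka := by
  unfold be
  have h1 := D.A12
  have h2 := D.Hpos
  rw [div_le_iff₀ (by linarith)]
  have h3 := D.A2_le
  have h4 := ka_pos
  nlinarith

theorem be_eq : D.be * D.A1 = (D.be + ka) * D.A2 := by
  have h1 := D.A12
  have h2 := D.Hpos
  have h3 : D.be * (D.A1 - D.A2) = ka * D.A2 := by
    unfold be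
    rw [div_mul_cancel₀]
    intro h
    linarith
  linarith

noncomputable def p : ℝ := D.be / D.G1.card
noncomputable def q : ℝ := (D.be + ka) / D.G2.card

theorem p_pos : 0 < D.p := div_pos D.be_pos D.c1pos
theorem q_pos : 0 < D.q := div_pos (by linarith [D.be_pos, ka_pos]) D.c2pos

theorem p_le : D.p ≤ 4 / D.H := by
  unfold p
  have h1 := D.c1pos
  have h2 := D.Hpos
  rw [div_le_div_iff₀ h1 (by linarith)]
  have h3 := D.be_le
  have h4 := ka_le
  have h5 := D.c1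
  nlinarith

theorem q_le : D.q ≤ 4 / D.H := by
  unfold q
  have h1 := D.c2pos
  have h2 := D.Hpos
  rw [div_le_div_iff₀ h1 (by linarith)]
  have h3 := D.be_le
  have h4 := ka_le
  have h5 := D.c2
  nlinarith

/-- coefficients -/
noncomputable def co (k : ℕ) : ℝ := (if k ∈ D.G1 then D.p else 0) - (if k ∈ D.G2 then D.q else 0)

theorem disj (k : ℕ) : ¬ (k ∈ D.G1 ∧ k ∈ D.G2) := by
  rintro ⟨h, h'⟩
  have := D.h1 k h
  have := D.h2 k h'
  omega

theorem co_abs (k : ℕ) : |D.co k| ≤ 4 / D.H := by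
  unfold co
  have hd := D.disj k
  have hH : (0 : ℝ) ≤ 4 / D.H := by positivity
  by_cases h1 : k ∈ D.G1
  · have h2 : k ∉ D.G2 := fun h => hd ⟨h1, h⟩
    simp only [h1, h2, if_true, if_false, sub_zero]
    rw [abs_of_pos D.p_pos]; exact D.p_le
  · by_cases h2 : k ∈ D.G2
    · simp only [h1, h2, if_true, if_false, zero_sub, abs_neg]
      rw [abs_of_pos D.q_pos]; exact D.q_le
    · simp only [h1, h2, if_false, sub_zero, abs_zero]; exact hH

theorem co_ne {k : ℕ} (h : D.co k ≠ 0) : k ∈ D.G1 ∨ k ∈ D.G2 := by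
  by_contra hc
  push Not at hc
  apply h
  unfold co
  simp [hc.1, hc.2]

theorem sum_co (f : ℕ → ℝ) :
    ∑ k ∈ Finset.range (4 * D.H), D.co k * f k = D.p * ∑ k ∈ D.G1, f k - D.q * ∑ k ∈ D.G2, f k := by
  unfold co
  simp only [sub_mul, Finset.sum_sub_distrib, ite_mul, zero_mul]
  have e1 : ∑ k ∈ Finset.range (4 * D.H), (if k ∈ D.G1 then D.p * f k else 0) = D.p * ∑ k ∈ D.G1, f k := by
    rw [← Finset.sum_filter, Finset.mul_sum]
    apply Finset.sum_congr _ (fun _ _ => rfl)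
    ext k
    simp only [Finset.mem_filter, Finset.mem_range]
    exact ⟨fun h => h.2, fun h => ⟨(D.h1 k h).2, h⟩⟩
  have e2 : ∑ k ∈ Finset.range (4 * D.H), (if k ∈ D.G2 then D.q * f k else 0) = D.q * ∑ k ∈ D.G2, f k := by
    rw [← Finset.sum_filter, Finset.mul_sum]
    apply Finset.sum_congr _ (fun _ _ => rfl)
    ext k
    simp only [Finset.mem_filter, Finset.mem_range]
    exact ⟨fun h => h.2, fun h => ⟨by have := (D.h2 k h).2; omega, h⟩⟩
  rw [e1, e2]

noncomputable def g (t : ℝ) : ℝ := ∑ k ∈ Finset.range (4 * D.H), D.co k * sg (k + 1 - t)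
noncomputable def h (t : ℝ) : ℝ := ∑ k ∈ Finset.range (4 * D.H), D.co k * w k t

noncomputable def b (t : ℝ) : ℝ := D.g t + D.g (-t) + ka
noncomputable def kk (t : ℝ) : ℝ := D.h t - D.h (-t)

theorem g_smooth : ContDiff ℝ ∞ D.g := by
  unfold g
  apply ContDiff.sum
  intro k _
  exact contDiff_const.mul (sg_smooth.comp (contDiff_const.sub contDiff_id))

theorem h_smooth : ContDiff ℝ ∞ D.h := by
  unfold h
  apply ContDiff.sum
  intro k _
  exact contDiff_const.mul (w_smooth k)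

theorem b_smooth : ContDiff ℝ ∞ D.b := by
  unfold b
  exact (D.g_smooth.add (D.g_smooth.comp contDiff_neg)).add contDiff_const

theorem kk_smooth : ContDiff ℝ ∞ D.kk := by
  unfold kk
  exact D.h_smooth.sub (D.h_smooth.comp contDiff_neg)

theorem g_hasDeriv (t : ℝ) : HasDerivAt D.g
    (∑ k ∈ Finset.range (4 * D.H), D.co k * (-deriv sg (k + 1 - t))) t := by
  unfold g
  apply HasDerivAt.fun_sum
  intro k _
  exact (sgk_hasDeriv k t).const_mul _

theorem h_hasDeriv (t : ℝ) : HasDerivAt D.h (-t * deriv D.g t) t := by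
  have h1 : HasDerivAt D.h (∑ k ∈ Finset.range (4 * D.H), D.co k * (t * deriv sg (k + 1 - t))) t := by
    unfold h
    apply HasDerivAt.fun_sum
    intro k _
    exact (w_hasDeriv k t).const_mul _
  rw [(D.g_hasDeriv t).deriv]
  have h2 : -t * ∑ k ∈ Finset.range (4 * D.H), D.co k * (-deriv sg (k + 1 - t))
      = ∑ k ∈ Finset.range (4 * D.H), D.co k * (t * deriv sg (k + 1 - t)) := by
    rw [Finset.mul_sum]
    apply Finset.sum_congr rfl
    intro k _
    ring
  rw [h2]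
  exact h1

theorem b_hasDeriv (t : ℝ) : HasDerivAt D.b (deriv D.g t - deriv D.g (-t)) t := by
  have h1 : HasDerivAt D.g (deriv D.g t) t := (D.g_hasDeriv t).differentiableAt.hasDerivAt
  have h2 : HasDerivAt D.g (deriv D.g (-t)) (-t) := (D.g_hasDeriv (-t)).differentiableAt.hasDerivAt
  have h3 := (h1.add (h2.comp t (hasDerivAt_neg t))).add_const ka
  have e : deriv D.g t - deriv D.g (-t) = deriv D.g t + deriv D.g (-t) * -1 := by ring
  rw [e]
  exact h3

theorem kk_hasDeriv (t : ℝ) : HasDerivAt D.kk (-t * deriv D.b t) t := by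
  have h1 := D.h_hasDeriv t
  have h2 := (D.h_hasDeriv (-t)).comp t (hasDerivAt_neg t)
  rw [(D.b_hasDeriv t).deriv]
  have e : -t * (deriv D.g t - deriv D.g (-t)) = -t * deriv D.g t - -(-t) * deriv D.g (-t) * -1 := by ring
  rw [e]
  exact h1.sub h2

theorem sum_p : D.p * D.G1.card = D.be := by
  unfold p
  rw [div_mul_cancel₀ _ D.c1pos.ne']

theorem sum_q : D.q * D.G2.card = D.be + ka := by
  unfold q
  rw [div_mul_cancel₀ _ D.c2pos.ne']

/-- bounds of `g` -/
theorem g_low {t : ℝ} (ht : t ≤ 3 * D.H) : D.g t = D.be - D.q * ∑ k ∈ D.G2, sg (k + 1 - t) := by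
  unfold g
  rw [D.sum_co (fun k => sg (k + 1 - t))]
  have h1 : ∑ k ∈ D.G1, sg ((k : ℝ) + 1 - t) = D.G1.card := by
    rw [Finset.card_eq_sum_ones]
    push_cast
    apply Finset.sum_congr rfl
    intro k hk
    apply sg_one
    have : (3 * D.H : ℝ) ≤ k := by exact_mod_cast (D.h1 k hk).1
    linarith
  rw [h1, D.sum_p]

theorem g_high {t : ℝ} (ht : 2 * D.H ≤ t) : D.g t = D.p * ∑ k ∈ D.G1, sg (k + 1 - t) := by
  unfold g
  rw [D.sum_co (fun k => sg (k + 1 - t))]
  have h1 : ∑ k ∈ D.G2, sg ((k : ℝ) + 1 - t) = 0 := by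
    apply Finset.sum_eq_zero
    intro k hk
    apply sg_zero
    have : k + 1 ≤ 2 * D.H := (D.h2 k hk).2
    have : (k : ℝ) + 1 ≤ 2 * D.H := by exact_mod_cast this
    linarith
  rw [h1]; ring

theorem sum_sg_le (G : Finset ℕ) (t : ℝ) : ∑ k ∈ G, sg ((k : ℝ) + 1 - t) ≤ G.card := by
  rw [Finset.card_eq_sum_ones]
  push_cast
  exact Finset.sum_le_sum (fun k _ => sg_le_one _)

theorem sum_sg_nonneg (G : Finset ℕ) (t : ℝ) : 0 ≤ ∑ k ∈ G, sg ((k : ℝ) + 1 - t) :=
  Finset.sum_nonneg (fun k _ => sg_nonneg _)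

theorem g_bound (t : ℝ) : -ka ≤ D.g t ∧ D.g t ≤ D.be := by
  have hp := D.p_pos
  have hq := D.q_pos
  have hb := D.be_pos
  have hk := ka_pos
  rcases le_or_gt t (3 * D.H) with h | h
  · rw [D.g_low h]
    have h1 := sum_sg_le D.G2 t
    have h2 := sum_sg_nonneg D.G2 t
    have h3 := D.sum_q
    constructor
    · nlinarith
    · nlinarith [mul_nonneg hq.le h2]
  · rw [D.g_high (by linarith [D.Hpos])]
    have h1 := sum_sg_le D.G1 t
    have h2 := sum_sg_nonneg D.G1 t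
    have h3 := D.sum_p
    constructor
    · nlinarith [mul_nonneg hp.le h2]
    · nlinarith

theorem g_core {t : ℝ} (ht : t ≤ D.H) : D.g t = -ka := by
  rw [D.g_low (by linarith [D.Hpos])]
  have h1 : ∑ k ∈ D.G2, sg ((k : ℝ) + 1 - t) = D.G2.card := by
    rw [Finset.card_eq_sum_ones]
    push_cast
    apply Finset.sum_congr rfl
    intro k hk
    apply sg_one
    have : (D.H : ℝ) ≤ k := by exact_mod_cast (D.h2 k hk).1
    linarith
  rw [h1, D.sum_q]; ring

theorem g_out {t : ℝ} (ht : 4 * D.H ≤ t) : D.g t = 0 := by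
  rw [D.g_high (by linarith [D.Hpos])]
  have h1 : ∑ k ∈ D.G1, sg ((k : ℝ) + 1 - t) = 0 := by
    apply Finset.sum_eq_zero
    intro k hk
    apply sg_zero
    have : k + 1 ≤ 4 * D.H := (D.h1 k hk).2
    have : (k : ℝ) + 1 ≤ 4 * D.H := by exact_mod_cast this
    linarith
  rw [h1]; ring

/-- bounds of `h` -/
theorem h_eq (t : ℝ) : D.h t = D.p * ∑ k ∈ D.G1, w k t - D.q * ∑ k ∈ D.G2, w k t := by
  unfold h
  rw [D.sum_co (fun k => w k t)]

theorem bal : D.p * ∑ k ∈ D.G1, Iw k = D.q * ∑ k ∈ D.G2, Iw k := by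
  have h := D.be_eq
  unfold A1 A2 at h
  unfold p q
  have h1 := D.c1pos.ne'
  have h2 := D.c2pos.ne'
  field_simp at h ⊢
  linarith

theorem h_core {t : ℝ} (ht : t ≤ D.H) : D.h t = 0 := by
  rw [D.h_eq]
  have h1 : ∑ k ∈ D.G1, w k t = 0 := by
    apply Finset.sum_eq_zero
    intro k hk
    apply w_zero
    have : (3 * D.H : ℝ) ≤ k := by exact_mod_cast (D.h1 k hk).1
    linarith [D.Hpos]
  have h2 : ∑ k ∈ D.G2, w k t = 0 := by
    apply Finset.sum_eq_zero
    intro k hk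
    apply w_zero
    have : (D.H : ℝ) ≤ k := by exact_mod_cast (D.h2 k hk).1
    linarith [D.Hpos]
  rw [h1, h2]; ring

theorem h_out {t : ℝ} (ht : 4 * D.H ≤ t) : D.h t = 0 := by
  rw [D.h_eq]
  have h1 : ∑ k ∈ D.G1, w k t = ∑ k ∈ D.G1, Iw k := by
    apply Finset.sum_congr rfl
    intro k hk
    apply w_one
    have : k + 1 ≤ 4 * D.H := (D.h1 k hk).2
    have : (k : ℝ) + 1 ≤ 4 * D.H := by exact_mod_cast this
    linarith
  have h2 : ∑ k ∈ D.G2, w k t = ∑ k ∈ D.G2, Iw k := by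
    apply Finset.sum_congr rfl
    intro k hk
    apply w_one
    have : k + 1 ≤ 2 * D.H := (D.h2 k hk).2
    have : (k : ℝ) + 1 ≤ 2 * D.H := by exact_mod_cast this
    linarith [D.Hpos]
  rw [h1, h2, D.bal]; ring

theorem h_bound (t : ℝ) : |D.h t| ≤ 6 * D.H := by
  have hp := D.p_pos
  have hq := D.q_pos
  have hb := D.be_pos
  have hb2 := D.be_le
  have hk := ka_pos
  have hk2 := ka_le
  have hH := D.Hpos
  have hI : D.q * ∑ k ∈ D.G2, Iw k = (D.be + ka) * D.A2 := by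
    unfold q A2
    ring
  have hA := D.A2_le
  have hA0 := D.A2_pos
  have hI2 : D.q * ∑ k ∈ D.G2, Iw k ≤ 6 * D.H := by
    rw [hI]
    have : D.be + ka ≤ 3 := by linarith
    nlinarith
  have s1 : ∑ k ∈ D.G1, w k t ≤ ∑ k ∈ D.G1, Iw k := Finset.sum_le_sum (fun k _ => w_le k t)
  have s2 : ∑ k ∈ D.G2, w k t ≤ ∑ k ∈ D.G2, Iw k := Finset.sum_le_sum (fun k _ => w_le k t)
  have n1 : 0 ≤ ∑ k ∈ D.G1, w k t := Finset.sum_nonneg (fun k _ => w_nonneg k t)
  have n2 : 0 ≤ ∑ k ∈ D.G2, w k t := Finset.sum_nonneg (fun k _ => w_nonneg k t)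
  have m1 := mul_nonneg hp.le n1
  have m2 := mul_nonneg hq.le n2
  have m3 := mul_le_mul_of_nonneg_left s1 hp.le
  have m4 := mul_le_mul_of_nonneg_left s2 hq.le
  rw [D.bal] at m3
  rw [D.h_eq, abs_le]
  constructor <;> linarith

/-! ### `b` -/

theorem b_pos {t : ℝ} (ht : 0 ≤ t) : D.b t = D.g t := by
  unfold b
  rw [D.g_core (t := -t) (by linarith [D.Hpos])]; ring

theorem b_neg {t : ℝ} (ht : t ≤ 0) : D.b t = D.g (-t) := by
  unfold b
  rw [D.g_core (t := t) (by linarith [D.Hpos])]; ring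

theorem kk_pos {t : ℝ} (ht : 0 ≤ t) : D.kk t = D.h t := by
  unfold kk
  rw [D.h_core (t := -t) (by linarith [D.Hpos])]; ring

theorem kk_neg {t : ℝ} (ht : t ≤ 0) : D.kk t = -D.h (-t) := by
  unfold kk
  rw [D.h_core (t := t) (by linarith [D.Hpos])]; ring

end GD

end Pool.Agent.H145FF
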