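import Mathlib
import Pool.Agent.Helper145.FF.SchedA
import Pool.Agent.Helper145.FF.SchedC
import Pool.Agent.Helper930.FF.Defs

set_option autoImplicit false

/-! # The SCHEDULE module -/

namespace Pool.Agent.H145FF

open Finset Filter Topology
open scoped ContDiff

namespace GD

variable (D : GD)

theorem iter_g (i : ℕ) (t : ℝ) : iteratedDeriv i D.g t =
    ∑ k ∈ Finset.range (4 * D.H), D.co k * ((-1) ^ i * iteratedDeriv i sg (k + 1 - t)) := by
  have hc : ∀ k : ℕ, ContDiff ℝ i (fun t : ℝ => sg (k + 1 - t)) := fun k =>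
    (sg_smooth.of_le (by exact_mod_cast le_top)).comp (contDiff_const.sub contDiff_id)
  unfold g
  rw [iteratedDeriv_fun_sum (fun k _ => (contDiff_const.mul (hc k)).contDiffAt)]
  apply Finset.sum_congr rfl
  intro k _
  rw [iteratedDeriv_const_mul _ (hc k).contDiffAt, iteratedDeriv_comp_const_sub]
  simp

theorem iter_g_ne (i : ℕ) (hi : 1 ≤ i) (t : ℝ) (k : ℕ)
    (h : D.co k * ((-1) ^ i * iteratedDeriv i sg (k + 1 - t)) ≠ 0) :
    D.co k ≠ 0 ∧ (k : ℝ) < t ∧ t < k + 1 := by
  have h1 : D.co k ≠ 0 := left_ne_zero_of_mul h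
  have h2 := right_ne_zero_of_mul (right_ne_zero_of_mul h)
  refine ⟨h1, ?_, ?_⟩
  · by_contra hc
    push Not at hc
    exact h2 (sg_iter_zero i hi (Or.inr (by linarith)))
  · by_contra hc
    push Not at hc
    exact h2 (sg_iter_zero i hi (Or.inl (by linarith)))

theorem iter_g_le {S : ℝ} (hS : 0 < S) (i : ℕ) (hi : 1 ≤ i) (hb : ∀ x, |iteratedDeriv i sg x| ≤ S) (t : ℝ) :
    |iteratedDeriv i D.g t| ≤ 4 / D.H * S := by
  rw [D.iter_g i t]
  have hH : (0 : ℝ) ≤ 4 / D.H := by positivity
  by_cases hex : ∃ k ∈ Finset.range (4 * D.H), D.co k * ((-1) ^ i * iteratedDeriv i sg (k + 1 - t)) ≠ 0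
  · obtain ⟨k0, hk0, hne⟩ := hex
    have h0 := D.iter_g_ne i hi t k0 hne
    rw [Finset.sum_eq_single_of_mem k0 hk0]
    · rw [abs_mul, abs_mul, abs_pow, abs_neg, abs_one, one_pow, one_mul]
      exact mul_le_mul (D.co_abs k0) (hb _) (abs_nonneg _) hH
    · intro k _ hkk
      by_contra hc
      have h1 := D.iter_g_ne i hi t k hc
      apply hkk
      have e1 : (k : ℝ) < k0 + 1 := by linarith [h1.2.1, h0.2.2]
      have e2 : (k0 : ℝ) < k + 1 := by linarith [h0.2.1, h1.2.2]
      have e1' : k < k0 + 1 := by exact_mod_cast e1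
      have e2' : k0 < k + 1 := by exact_mod_cast e2
      omega
  · push Not at hex
    rw [Finset.sum_eq_zero hex, abs_zero]
    positivity

theorem iter_b (i : ℕ) (hi : 1 ≤ i) (t : ℝ) :
    iteratedDeriv i D.b t = iteratedDeriv i D.g t + (-1) ^ i * iteratedDeriv i D.g (-t) := by
  have h1 : ContDiff ℝ i D.g := D.g_smooth.of_le (by exact_mod_cast le_top)
  have h2 : ContDiff ℝ i (fun t => D.g (-t)) := h1.comp contDiff_neg
  have e : D.b = fun t => (fun t => D.g t + D.g (-t)) t + ka := rfl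
  rw [e, iteratedDeriv_fun_add (h1.add h2).contDiffAt contDiff_const.contDiffAt,
    iteratedDeriv_fun_add h1.contDiffAt h2.contDiffAt, iteratedDeriv_comp_neg]
  simp [iteratedDeriv_const, show i ≠ 0 by omega]

theorem iter_b_le {S : ℝ} (hS : 0 < S) (i : ℕ) (hi : 1 ≤ i) (hb : ∀ x, |iteratedDeriv i sg x| ≤ S) (t : ℝ) :
    |iteratedDeriv i D.b t| ≤ 16 * S / (2 * D.H) := by
  rw [D.iter_b i hi t]
  have h1 := D.iter_g_le hS i hi hb t
  have h2 := D.iter_g_le hS i hi hb (-t)
  have h3 : |(-1) ^ i * iteratedDeriv i D.g (-t)| = |iteratedDeriv i D.g (-t)| := by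
    rw [abs_mul, abs_pow, abs_neg, abs_one, one_pow, one_mul]
  refine (abs_add_le _ _).trans ?_
  rw [h3]
  have hH := D.Hpos
  have e : 16 * S / (2 * D.H) = 4 / D.H * S + 4 / D.H * S := by
    field_simp; ring
  rw [e]
  linarith

/-- the active unit intervals -/
def gd : Set ℤ := {i | ∃ k : ℕ, (k ∈ D.G1 ∨ k ∈ D.G2) ∧ (i = k ∨ i = -k - 1)}

theorem dg_zero (t : ℝ) (h : ∀ k : ℕ, (k ∈ D.G1 ∨ k ∈ D.G2) → ¬ ((k : ℝ) < t ∧ t < k + 1)) :
    deriv D.g t = 0 := by
  have := D.iter_g 1 t
  rw [iteratedDeriv_one] at this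
  rw [this]
  apply Finset.sum_eq_zero
  intro k _
  by_contra hc
  have h1 := D.iter_g_ne 1 le_rfl t k hc
  exact h k (D.co_ne h1.1) h1.2

theorem prof {S : ℝ} (hS : 0 < S) (hSb : ∀ i ∈ Finset.Icc 1 3, ∀ x, |iteratedDeriv i sg x| ≤ S) :
    H930.FF.Prof (16 * S) (2 * D.H) D.gd D.b D.kk := by
  have hH := D.Hpos
  have hbs : ∀ i, 1 ≤ i → i ≤ 3 → ∀ t, |iteratedDeriv i D.b t| ≤ 16 * S / (2 * D.H) := fun i h1 h2 t =>
    D.iter_b_le hS i h1 (hSb i (Finset.mem_Icc.2 ⟨h1, h2⟩)) t
  refine ⟨?_, ?_, ?_, ?_, ?_, ?_, ?_, ?_, ?_, ?_, ?_, ?_, ?_, ?_, ?_⟩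
  · exact_mod_cast (contDiff_infty.1 D.b_smooth) 4
  · exact_mod_cast (contDiff_infty.1 D.kk_smooth) 4
  · intro t ht
    rcases le_total 0 t with h | h
    · rw [abs_of_nonneg h] at ht
      rw [D.b_pos h, D.g_out (by linarith)]
    · rw [abs_of_nonpos h] at ht
      rw [D.b_neg h, D.g_out (by linarith)]
  · intro t ht
    rcases le_total 0 t with h | h
    · rw [abs_of_nonneg h] at ht
      rw [D.kk_pos h, D.h_out (by linarith)]
    · rw [abs_of_nonpos h] at ht
      rw [D.kk_neg h, D.h_out (by linarith), neg_zero]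
  · intro t ht
    rcases le_total 0 t with h | h
    · rw [abs_of_nonneg h] at ht
      rw [D.b_pos h, D.g_core (by linarith)]
      unfold ka; ring
    · rw [abs_of_nonpos h] at ht
      rw [D.b_neg h, D.g_core (by linarith)]
      unfold ka; ring
  · intro t ht
    rcases le_total 0 t with h | h
    · rw [abs_of_nonneg h] at ht
      rw [D.kk_pos h, D.h_core (by linarith)]
    · rw [abs_of_nonpos h] at ht
      rw [D.kk_neg h, D.h_core (by linarith), neg_zero]
  · intro t
    have e : (1 : ℝ) / 2000 ^ 2 - 1 = -ka := by unfold ka; ring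
    rw [e]
    rcases le_total 0 t with h | h
    · rw [D.b_pos h]; exact (D.g_bound _).1
    · rw [D.b_neg h]; exact (D.g_bound _).1
  · intro t
    have e := D.be_le
    have e2 := ka_le
    rcases le_total 0 t with h | h
    · rw [D.b_pos h]; linarith [(D.g_bound t).2]
    · rw [D.b_neg h]; linarith [(D.g_bound (-t)).2]
  · intro t
    rcases le_total 0 t with h | h
    · rw [D.kk_pos h]; linarith [D.h_bound t]
    · rw [D.kk_neg h, abs_neg]; linarith [D.h_bound (-t)]
  · intro t
    exact (D.kk_hasDeriv t).deriv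
  · intro t
    have := hbs 1 le_rfl (by norm_num) t
    rwa [iteratedDeriv_one] at this
  · intro t
    have := hbs 2 (by norm_num) (by norm_num) t
    rwa [iteratedDeriv_succ, iteratedDeriv_one] at this
  · intro t
    have := hbs 3 (by norm_num) (by norm_num) t
    rwa [iteratedDeriv_succ, iteratedDeriv_succ, iteratedDeriv_one] at this
  · intro t ht
    rw [(D.b_hasDeriv t).deriv]
    have h1 : deriv D.g t = 0 := by
      apply D.dg_zero
      intro k hk hc
      apply ht (k : ℤ) ⟨k, hk, Or.inl rfl⟩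
      push_cast
      exact ⟨hc.1.le, hc.2.le⟩
    have h2 : deriv D.g (-t) = 0 := by
      apply D.dg_zero
      intro k hk hc
      apply ht (-(k : ℤ) - 1) ⟨k, hk, Or.inr rfl⟩
      push_cast
      exact ⟨by linarith [hc.2], by linarith [hc.1]⟩
    rw [h1, h2, sub_zero]
  · rintro i ⟨k, hk, hi⟩
    have hk1 : (D.H : ℝ) ≤ k := by
      rcases hk with hk | hk
      · have : D.H ≤ k := by have := (D.h1 k hk).1; omega
        exact_mod_cast this
      · exact_mod_cast (D.h2 k hk).1
    have hk2 : (k : ℝ) + 1 ≤ 4 * D.H := by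
      rcases hk with hk | hk
      · have : k + 1 ≤ 4 * D.H := (D.h1 k hk).2
        exact_mod_cast this
      · have : k + 1 ≤ 4 * D.H := by have := (D.h2 k hk).2; omega
        exact_mod_cast this
    rcases hi with hi | hi
    · left
      rw [hi]; push_cast
      constructor <;> linarith
    · right
      rw [hi]; push_cast
      constructor <;> linarith

end GD

theorem NN_pos (n0 : ℕ) (hn : 1 ≤ n0) (m : ℕ) : 0 < H930.FF.NN n0 m := by
  unfold H930.FF.NN
  have : (1 : ℝ) ≤ n0 := by exact_mod_cast hn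
  positivity

/-- geometric sum -/
theorem sum_NN (n0 : ℕ) (m : ℕ) :
    999 * ∑ n ∈ Finset.range m, H930.FF.NN n0 n ≤ H930.FF.NN n0 m := by
  induction m with
  | zero => simp [H930.FF.NN]
  | succ m ih =>
    rw [Finset.sum_range_succ, mul_add]
    have : H930.FF.NN n0 (m + 1) = 1000 * H930.FF.NN n0 m := by unfold H930.FF.NN; ring
    rw [this]
    linarith

theorem NN_le (n0 : ℕ) {n m : ℕ} (h : n < m) : 1000 * H930.FF.NN n0 n ≤ H930.FF.NN n0 m := by
  unfold H930.FF.NN
  have h1 : (1000 : ℝ) ^ (n + 1) ≤ 1000 ^ m := pow_le_pow_right₀ (by norm_num) h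
  rw [pow_succ] at h1
  have h2 : (0 : ℝ) ≤ n0 := by positivity
  nlinarith

open Classical in
/-- **SCHEDULE module.** -/
theorem schedule : H930.FF.ScheduleThm := by
  obtain ⟨S, hS, hSb⟩ := sg_bound
  refine ⟨al, 16 * S, 1 / 4000, 1, by norm_num, by norm_num, ?_⟩
  intro n0 hn0 r hr hsum
  have hn0' : (1 : ℝ) ≤ n0 := by exact_mod_cast hn0
  have hterm : ∀ m, H930.FF.NN n0 m * r m ≤ 1 / 4000 := by
    intro m
    refine le_trans ?_ (hsum m)
    exact Finset.single_le_sum (f := fun j => H930.FF.NN n0 j * r j)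
      (fun j _ => mul_nonneg (NN_pos n0 hn0 j).le (hr j).le) (Finset.mem_range.2 (Nat.lt_succ_self m))
  -- natural numbers
  set Nn : ℕ → ℕ := fun n => 2 * (n0 * 1000 ^ n) with hNn
  have hNc : ∀ n, (Nn n : ℝ) = H930.FF.NN n0 n := by
    intro n; simp only [hNn]; unfold H930.FF.NN; push_cast; ring
  set Hn : ℕ → ℕ := fun n => n0 * 1000 ^ n with hHn
  have hHc : ∀ n, 2 * (Hn n : ℝ) = H930.FF.NN n0 n := by
    intro n; simp only [hHn]; unfold H930.FF.NN; push_cast; ring
  have hH1 : ∀ n, 1 ≤ Hn n := fun n => Nat.one_le_iff_ne_zero.2 (by positivity)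
  have hcard : ∀ (m A B : ℕ), Hn m ≤ A → B ≤ 4 * Hn m →
      (((Finset.Ico A B).filter (fun k => Bad m (fun n => (Nn n : ℝ)) (fun n => r n + r m) k)).card : ℝ)
        ≤ Hn m / 4 := by
    intro m A B hA hB
    apply card_Bad m Nn (fun n => r n + r m) (Hn m) (fun n => by simp only [hNn]; have := hH1 n; simp only [hHn] at this; omega)
      (fun n => add_pos (hr n) (hr m)) ?_ ?_ ?_ A B hA hB
    · intro n hn
      have h := NN_le n0 hn
      rw [← hNc, ← hHc] at h
      have h' : 1000 * (Nn n : ℝ) ≤ 2 * Hn m := h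
      have : 10 * (Nn n : ℝ) ≤ Hn m := by linarith [(Nat.cast_nonneg (Nn n) : (0 : ℝ) ≤ Nn n)]
      exact_mod_cast this
    · have h := sum_NN n0 m
      simp only [hNc]
      rw [← hHc] at h
      have h0 : 0 ≤ ∑ n ∈ Finset.range m, H930.FF.NN n0 n :=
        Finset.sum_nonneg (fun n _ => (NN_pos n0 hn0 n).le)
      linarith
    · simp only [hNc, mul_add, Finset.sum_add_distrib]
      rw [← Finset.sum_mul]
      have h1 := sum_NN n0 m
      have h2 : ∑ n ∈ Finset.range m, H930.FF.NN n0 n * r n ≤ 1 / 4000 := by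
        refine le_trans ?_ (hsum m)
        apply Finset.sum_le_sum_of_subset_of_nonneg
        · intro x hx; rw [Finset.mem_range] at hx ⊢; omega
        · intro j _ _; exact mul_nonneg (NN_pos n0 hn0 j).le (hr j).le
      have h3 := hterm m
      have h4 : (∑ n ∈ Finset.range m, H930.FF.NN n0 n) * r m ≤ 1 / 4000 := by
        have h0 : 0 ≤ ∑ n ∈ Finset.range m, H930.FF.NN n0 n :=
          Finset.sum_nonneg (fun n _ => (NN_pos n0 hn0 n).le)
        have : ∑ n ∈ Finset.range m, H930.FF.NN n0 n ≤ H930.FF.NN n0 m := by linarith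
        exact (mul_le_mul_of_nonneg_right this (hr m).le).trans h3
      linarith
  have hgood : ∀ (m A : ℕ), Hn m ≤ A → A + Hn m ≤ 4 * Hn m →
      3 * (Hn m : ℝ) / 4 ≤ (((Finset.Ico A (A + Hn m)).filter
        (fun k => ¬ Bad m (fun n => (Nn n : ℝ)) (fun n => r n + r m) k)).card : ℝ) := by
    intro m A hA hB
    have h := hcard m A (A + Hn m) hA hB
    have h2 := Finset.card_filter_add_card_filter_not (s := Finset.Ico A (A + Hn m))
      (fun k => Bad m (fun n => (Nn n : ℝ)) (fun n => r n + r m) k)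
    rw [Nat.card_Ico, Nat.add_sub_cancel_left] at h2
    have h3 : (((Finset.Ico A (A + Hn m)).filter (fun k => Bad m (fun n => (Nn n : ℝ)) (fun n => r n + r m) k)).card : ℝ)
      + (((Finset.Ico A (A + Hn m)).filter
        (fun k => ¬ Bad m (fun n => (Nn n : ℝ)) (fun n => r n + r m) k)).card : ℝ) = Hn m := by exact_mod_cast h2
    linarith
  set D : ℕ → GD := fun m =>
    { H := Hn m
      G1 := (Finset.Ico (3 * Hn m) (3 * Hn m + Hn m)).filter
        (fun k => ¬ Bad m (fun n => (Nn n : ℝ)) (fun n => r n + r m) k)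
      G2 := (Finset.Ico (Hn m) (Hn m + Hn m)).filter
        (fun k => ¬ Bad m (fun n => (Nn n : ℝ)) (fun n => r n + r m) k)
      hH := hH1 m
      h1 := fun k hk => by
        rw [Finset.mem_filter, Finset.mem_Ico] at hk
        omega
      h2 := fun k hk => by
        rw [Finset.mem_filter, Finset.mem_Ico] at hk
        omega
      c1 := hgood m (3 * Hn m) (by omega) (by omega)
      c2 := hgood m (Hn m) (by omega) (by omega) } with hD
  have hDgood : ∀ m k, (k ∈ (D m).G1 ∨ k ∈ (D m).G2) →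
      ¬ Bad m (fun n => (Nn n : ℝ)) (fun n => r n + r m) k := by
    intro m k hk
    rcases hk with hk | hk
    · exact (Finset.mem_filter.1 hk).2
    · exact (Finset.mem_filter.1 hk).2
  refine ⟨fun m => (D m).gd, fun m => (D m).b, fun m => (D m).kk, fun m => ⟨?_, ?_, ?_⟩⟩
  · have h := (D m).prof hS hSb
    have e : 2 * ((D m).H : ℝ) = H930.FF.NN n0 m := hHc m
    rw [e] at h
    exact h
  · intro k j hk hj
    have hN := NN_pos n0 hn0 m
    have hN2 : 2 ≤ H930.FF.NN n0 m := by
      rw [← hHc]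
      have : (1 : ℝ) ≤ Hn m := by exact_mod_cast hH1 m
      linarith
    have ht := hterm m
    have hrm := hr m
    have hk0 : k = 0 := by
      by_contra hne
      have hb := badly k j hne
      have hkpos : (0 : ℝ) < |(k : ℝ)| := by
        rw [abs_pos]; exact_mod_cast hne
      rw [abs_sub_comm] at hj
      have h1 := hb.trans hj
      rw [div_le_iff₀ (by positivity)] at h1
      nlinarith
    refine ⟨hk0, ?_⟩
    rw [hk0] at hj
    simp only [Int.cast_zero, zero_mul, sub_zero] at hj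
    have h1 : |(j : ℝ)| < 1 := by
      have : r m ≤ 1 / 4000 := by nlinarith
      linarith
    have h2 : |j| < 1 := by exact_mod_cast h1
    exact Int.abs_lt_one_iff.1 h2
  · rintro i ⟨k, hk, hi⟩ j hj k' j' hkk
    have hgb := hDgood m k hk
    by_contra hc
    push Not at hc
    apply hgb
    rcases hi with hi | hi
    · refine ⟨j, hj, k, le_rfl, by linarith, -k', -j', ?_, ?_⟩
      · rw [hi] at hkk
        simp only [hNc]
        push_cast at hkk ⊢
        rw [← sub_eq_add_neg]
        exact hkk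
      · push_cast
        have e : -(k' : ℝ) * al - -(j' : ℝ) = (j' : ℝ) - k' * al := by ring
        rw [e]
        exact hc
    · refine ⟨j, hj, k + 1, by linarith, le_rfl, k', j', ?_, ?_⟩
      · rw [hi] at hkk
        simp only [hNc]
        push_cast at hkk ⊢
        have e : (k : ℝ) + 1 + k' = -(-(k : ℝ) - 1 - k') := by ring
        rw [e, abs_neg]
        exact hkk
      · rw [abs_sub_comm]
        exact hc

end Pool.Agent.H145FF
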